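import Pool.Agent.helper99.WN.SpecA

/-!
# Project wn, row CD: the completion has property `Cl` again
-/

set_option autoImplicit false
set_option linter.unusedVariables false

open Classical

namespace Pool.Agent.WN

theorem CD_cases {V : Type} {k : ℕ} {R : V → Lt k → V → Prop} {W : ℤ → Lt k} {N n : ℕ}
    {p q : V × List (Lt k)} {a : Lt k} (h : Rp R W N n p a q) :
    p.2 = [] ∨ (∃ v u, Al R W N n v (a :: u) ∧ p = (v, u) ∧ q = (v, a :: u)) ∨
    (∃ v u, Al R W N n v (iv a :: u) ∧ p = (v, iv a :: u) ∧ q = (v, u)) ∨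
    (∃ (v : V) (i : ℤ) (y : V) (l m : ℕ), Arc R W v i y l ∧ m + l + N + 1 = n * N ∧
      p = (v, fw W i m) ∧ a = W (i + m) ∧ q = (y, bw W (i - l) N)) ∨
    (∃ (v : V) (i : ℤ) (y : V) (l m : ℕ), Arc R W v i y l ∧ m + l + N + 1 = n * N ∧
      p = (y, bw W (i - l) N) ∧ a = iv (W (i + m)) ∧ q = (v, fw W i m)) := by
  cases h with
  | base h => exact Or.inl rfl
  | @down v a u h => exact Or.inr (Or.inl ⟨v, u, h, rfl, rfl⟩)
  | @up v a u h =>
    refine Or.inr (Or.inr (Or.inl ⟨v, u, ?_, ?_, rfl⟩))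
    · rw [iv_iv]; exact h
    · rw [iv_iv]
  | @cf v i y l m h1 h2 =>
    exact Or.inr (Or.inr (Or.inr (Or.inl ⟨v, i, y, l, m, h1, h2, rfl, rfl, rfl⟩)))
  | @cb v i y l m h1 h2 =>
    exact Or.inr (Or.inr (Or.inr (Or.inr ⟨v, i, y, l, m, h1, h2, rfl, rfl, rfl⟩)))

theorem CD_shift {V : Type} {k : ℕ} {R : V → Lt k → V → Prop} {W : ℤ → Lt k} {N n : ℕ}
    (hW : Wd W N) {t t' : ℤ} {v : V} (hd : (N : ℤ) ∣ t - t') (h : ClAt R W N n t' v) :
    ClAt R W N n t v := by
  obtain ⟨z, hz, h1, h2⟩ := h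
  refine ⟨fun q => z (q - (t - t')), ?_, ?_, ?_⟩
  · intro q hq1 hq2
    have h3 := hz (q - (t - t')) (by omega) (by omega)
    have h4 : W (q - (t - t')) = W q := by
      apply hW.per_dvd
      have h5 : q - (t - t') - q = -(t - t') := by ring
      rw [h5]
      exact (dvd_neg).2 hd
    rw [h4] at h3
    have h6 : q + 1 - (t - t') = q - (t - t') + 1 := by ring
    show R (z (q - (t - t'))) (W q) (z (q + 1 - (t - t')))
    rw [h6]
    exact h3
  · show z (t - (t - t')) = v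
    rw [show t - (t - t') = t' by ring]
    exact h1
  · show z (t + (n : ℤ) * N - (t - t')) = v
    rw [show t + (n : ℤ) * N - (t - t') = t' + (n : ℤ) * N by ring]
    exact h2

theorem CD (hCA : CA_stmt) (hCB : CB_stmt) (hCY : CY_stmt) (hCC : CC_stmt) (hC1 : C1_stmt)
    (hC2 : C2_stmt) (hC3 : C3_stmt) : CD_stmt := by
  intro V k R W N n H s z hz
  obtain ⟨hdet, hsym⟩ := hCB V k R W N n H
  obtain ⟨cc1, cc2⟩ := hCC V k R W N n H
  have hN : (0 : ℤ) < N := by exact_mod_cast H.wd.pos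
  have hn : (7 : ℤ) ≤ n := by exact_mod_cast H.seven
  have hM : 4 * (N : ℤ) ≤ ((n : ℤ) - 3) * N := by nlinarith
  set e : ℤ := s + ((n : ℤ) - 3) * N with he
  have hse : s + 4 * (N : ℤ) ≤ e := by omega
  suffices hs : ∃ t1, s ≤ t1 ∧ t1 ≤ e ∧ ClAt (Rp R W N n) W N n t1 (z t1) by
    obtain ⟨t1, h1, h2, h3⟩ := hs
    exact hCY _ k (Rp R W N n) W N n H.wd (by have := H.seven; omega) hdet hsym s e z hz t1 h1 h2 h3
      s le_rfl (by omega)
  by_contra hcon
  push Not at hcon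
  have hne : ∀ t, s ≤ t → t ≤ e → (z t).2 ≠ [] := by
    intro t h1 h2 h3
    apply hcon t h1 h2
    have h4 : z t = ((z t).1, ([] : List (Lt k))) := by
      rw [← h3]
    rw [h4]
    exact cc1 _ t
  have hmid : ∀ t, s + N ≤ t → t ≤ e - N →
      (∃ v u, Al R W N n v (W t :: u) ∧ z t = (v, u) ∧ z (t + 1) = (v, W t :: u)) ∨
      (∃ v u, Al R W N n v (iv (W t) :: u) ∧ z t = (v, iv (W t) :: u) ∧ z (t + 1) = (v, u)) := by
    intro t h1 h2
    rcases CD_cases (hz t (by omega) (by omega)) with h | h | h | h | h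
    · exact absurd h (hne t (by omega) (by omega))
    · exact Or.inl h
    · exact Or.inr h
    · exfalso
      obtain ⟨v, i, y, l, m, ha, hm, e1, e2, e3⟩ := h
      have h3 := hC1 V k R W N n H s e z hz t v i y l m h1 (by omega) ha hm e1 e3 e2
      apply hcon t (by omega) (by omega)
      rw [e1]
      exact CD_shift H.wd h3 (cc2 v i y l m ha (le_of_eq hm))
    · exfalso
      obtain ⟨v, i, y, l, m, ha, hm, e1, e2, e3⟩ := h
      exact hC2 V k R W N n H s e z hz t v i y l m (by omega) (by omega) ha hm e1 e3 e2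
  obtain ⟨t, h1, h2, h3⟩ := hC3 V k R W N n H (s + N) z
    (fun t h1 h2 => hne t (by omega) (by omega)) (fun t h1 h2 => hmid t h1 (by omega))
  exact hcon t (by omega) (by omega) h3

end Pool.Agent.WN
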