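import Pool.Agent.helper99.WN.SpecB

/-!
# Project wn, row CP: a conjugate of `w` which is the label of a closed path
-/

set_option autoImplicit false
set_option linter.unusedVariables false

open Classical

namespace Pool.Agent.WN

theorem CP_inv {V : Type} {k : ℕ} {R : V → Lt k → V → Prop} (hS : Sym R) (l : List (Lt k)) :
    ∀ {v v' : V}, Rd R v l v' → Rd R v' (FreeGroup.invRev l) v := by
  induction l with
  | nil =>
    intro v v' h
    have h1 : v = v' := h
    exact h1.symm
  | cons a l ih =>
    intro v v' h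
    obtain ⟨v1, h1, h2⟩ := h
    have h3 := ih h2
    have e : FreeGroup.invRev (a :: l) = FreeGroup.invRev l ++ [iv a] := by
      simp [FreeGroup.invRev, iv]
    rw [e]
    exact rd_append h3 ⟨v, hS _ _ _ h1, rfl⟩

theorem CP_run {V : Type} {k : ℕ} {R : V → Lt k → V → Prop} (W : ℤ → Lt k) (i : ℤ) (p : V)
    (m : ℕ) : ∀ {p' : V}, Rd R p ((List.range m).map fun t : ℕ => W (i + (t : ℤ))) p' →
      ∃ z : ℤ → V, z i = p ∧ z (i + m) = p' ∧ Run R W i (i + m) z := by
  induction m with
  | zero =>
    intro p' h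
    have h1 : p = p' := h
    refine ⟨fun _ => p, rfl, h1, ?_⟩
    intro t h2 h3
    push_cast at h3
    omega
  | succ m ih =>
    intro p' h
    rw [List.range_succ, List.map_append, rd_append_iff] at h
    obtain ⟨v', h1, h2⟩ := h
    obtain ⟨z, hz1, hz2, hz3⟩ := ih h1
    obtain ⟨v1, h3, h4⟩ := h2
    have h5 : v1 = p' := h4
    subst h5
    refine ⟨fun t => if t ≤ i + m then z t else v1, ?_, ?_, ?_⟩
    · show (if i ≤ i + (m : ℤ) then z i else v1) = p
      rw [if_pos (by omega), hz1]
    · show (if i + ((m + 1 : ℕ) : ℤ) ≤ i + (m : ℤ) then z _ else v1) = v1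
      rw [if_neg (by push_cast; omega)]
    · intro t ht1 ht2
      push_cast at ht2
      show R (if t ≤ i + (m : ℤ) then z t else v1) (W t)
        (if t + 1 ≤ i + (m : ℤ) then z (t + 1) else v1)
      rw [if_pos (by omega)]
      by_cases h6 : t + 1 ≤ i + (m : ℤ)
      · rw [if_pos h6]
        exact hz3 t ht1 (by omega)
      · rw [if_neg h6]
        have h7 : t = i + m := by omega
        rw [h7, hz2]
        exact h3

/-- two consecutive letters which are not inverse -/
theorem CP_rel {k : ℕ} {a b : Lt k} (h : b ≠ iv a) : a.1 = b.1 → a.2 = b.2 := by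
  intro h1
  by_contra h2
  apply h
  unfold iv
  refine Prod.ext h1.symm ?_
  revert h2
  cases a.2 <;> cases b.2 <;> simp

theorem CP_range {k : ℕ} {W : ℤ → Lt k} {N : ℕ} (hW : Wd W N) (i : ℤ) (n : ℕ) :
    FreeGroup.IsReduced ((List.range n).map fun t : ℕ => W (i + (t : ℤ))) := by
  unfold FreeGroup.IsReduced
  rw [List.isChain_iff_getElem]
  intro j hj
  rw [List.getElem_map, List.getElem_map, List.getElem_range, List.getElem_range]
  apply CP_rel
  have h1 := hW.red (i + j)
  have h2 : i + (j : ℤ) + 1 = i + ((j + 1 : ℕ) : ℤ) := by push_cast; ring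
  rw [h2] at h1
  exact h1

theorem CP_app {k : ℕ} {l l' : List (Lt k)} (h : FreeGroup.IsReduced l)
    (h' : FreeGroup.IsReduced l') (hl : ∀ a ∈ l.getLast?, ∀ b ∈ l'.head?, b ≠ iv a) :
    FreeGroup.IsReduced (l ++ l') := by
  unfold FreeGroup.IsReduced at h h' ⊢
  rw [List.isChain_append]
  exact ⟨h, h', fun a ha b hb => CP_rel (hl a ha b hb)⟩

/-- the conjugating element can be chosen such that the word is reduced -/
theorem CP_red {k : ℕ} {W : ℤ → Lt k} {N : ℕ} (hW : Wd W N) (g : Fr k) :
    ∃ (g' : Fr k) (i : ℤ), g * wd W 0 N * g⁻¹ = g' * wd W i N * g'⁻¹ ∧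
      (g * wd W 0 N * g⁻¹).toWord = g'.toWord ++
        ((List.range N).map fun t : ℕ => W (i + (t : ℤ))) ++ FreeGroup.invRev g'.toWord := by
  have hex : ∃ m : ℕ, ∃ (g' : Fr k) (i : ℤ), g'.toWord.length = m ∧
      g * wd W 0 N * g⁻¹ = g' * wd W i N * g'⁻¹ := ⟨_, g, 0, rfl, rfl⟩
  obtain ⟨g', i, hm, heq⟩ := Nat.find_spec hex
  have hmin : ∀ (g1 : Fr k) (j : ℤ), g * wd W 0 N * g⁻¹ = g1 * wd W j N * g1⁻¹ →
      g'.toWord.length ≤ g1.toWord.length := by
    intro g1 j h
    rw [hm]
    exact Nat.find_min' hex ⟨g1, j, rfl, h⟩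
  have hlast : ∀ b ∈ g'.toWord.getLast?, b ≠ iv (W i) ∧ b ≠ W (i - 1) := by
    intro b hb
    obtain ⟨L1, hL⟩ : ∃ L1, g'.toWord = L1 ++ [b] := by
      rw [Option.mem_def, List.getLast?_eq_some_iff] at hb
      exact hb
    have hg' : g' = FreeGroup.mk L1 * lt b := by
      unfold lt
      rw [FreeGroup.mul_mk, ← hL, FreeGroup.mk_toWord]
    have hlen : (FreeGroup.mk L1).toWord.length < g'.toWord.length := by
      have h1 : FreeGroup.norm (FreeGroup.mk L1) ≤ L1.length := FreeGroup.norm_mk_le
      have h2 : g'.toWord.length = L1.length + 1 := by rw [hL]; simp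
      rw [h2]
      exact Nat.lt_succ_of_le h1
    have hno : ∀ j : ℤ, lt b * wd W i N * (lt b)⁻¹ = wd W j N → False := by
      intro j hj
      have h1 : g * wd W 0 N * g⁻¹ = FreeGroup.mk L1 * wd W j N * (FreeGroup.mk L1)⁻¹ := by
        rw [heq, hg', ← hj, mul_inv_rev]
        simp only [mul_assoc]
      exact absurd (hmin _ _ h1) (not_le.2 hlen)
    constructor
    · intro hb1
      apply hno (i + 1)
      rw [hb1, lt_iv, hW.wd_shift i, inv_inv]
    · intro hb1
      apply hno (i - 1)
      have h1 := hW.wd_shift (i - 1)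
      rw [show i - 1 + 1 = i by ring] at h1
      rw [hb1, h1]
      simp only [mul_assoc, mul_inv_cancel, mul_one, mul_inv_cancel_left]
  refine ⟨g', i, heq, ?_⟩
  set M : List (Lt k) := (List.range N).map fun t : ℕ => W (i + (t : ℤ)) with hM
  have hMr : FreeGroup.IsReduced M := CP_range hW i N
  have hMne : M ≠ [] := by
    intro h
    have h1 := congrArg List.length h
    rw [hM, List.length_map, List.length_range] at h1
    exact absurd h1 hW.pos.ne'
  have hhead : M.head? = some (W i) := by
    rw [hM, List.head?_map, List.head?_range]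
    rw [if_neg hW.pos.ne']
    simp
  have hlastM : M.getLast? = some (W (i - 1)) := by
    obtain ⟨n, hn⟩ : ∃ n, N = n + 1 := ⟨N - 1, by have := hW.pos; omega⟩
    have h1 : W (i - 1) = W (i + (n : ℤ)) := by
      apply hW.per_dvd
      rw [hn]
      exact ⟨-1, by push_cast; ring⟩
    rw [h1, hM, hn, List.range_succ, List.map_append, List.map_singleton]
    exact List.getLast?_concat
  have hred : FreeGroup.IsReduced (g'.toWord ++ M ++ FreeGroup.invRev g'.toWord) := by
    refine FreeGroup.IsReduced.append_overlap ?_ ?_ hMne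
    · refine CP_app FreeGroup.isReduced_toWord hMr ?_
      intro a ha b hb hab
      rw [hhead, Option.mem_def, Option.some.injEq] at hb
      apply (hlast a ha).1
      rw [hb, hab, iv_iv]
    · refine CP_app hMr ?_ ?_
      · rw [← FreeGroup.toWord_inv]
        exact FreeGroup.isReduced_toWord
      · intro a ha b hb hab
        rw [hlastM, Option.mem_def, Option.some.injEq] at ha
        rcases List.eq_nil_or_concat g'.toWord with h1 | ⟨L1, c, h1⟩
        · rw [h1] at hb
          simp [FreeGroup.invRev] at hb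
        · have h2 : FreeGroup.invRev (L1 ++ [c]) = iv c :: FreeGroup.invRev L1 := by
            simp [FreeGroup.invRev, iv]
          rw [List.concat_eq_append] at h1
          rw [h1, h2, List.head?_cons, Option.mem_def, Option.some.injEq] at hb
          have h3 : c ∈ g'.toWord.getLast? := by
            rw [h1, Option.mem_def]
            exact List.getLast?_concat
          apply (hlast c h3).2
          rw [ha]
          apply iv_inj
          rw [hb, hab]
  have h1 : g * wd W 0 N * g⁻¹ =
      FreeGroup.mk (g'.toWord ++ M ++ FreeGroup.invRev g'.toWord) := by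
    rw [← FreeGroup.mul_mk, ← FreeGroup.mul_mk, ← FreeGroup.inv_mk, FreeGroup.mk_toWord, heq]
    rfl
  rw [h1, FreeGroup.toWord_mk]
  exact hred.reduce_eq

theorem CP (hRR : RR_stmt) : CP_stmt := by
  intro V k E W N v g hW hE hPL
  obtain ⟨g', i, heq, hw⟩ := CP_red hW g
  have hrd := hRR.2 V k E hE v v _ hPL
  rw [hw, rd_append_iff] at hrd
  obtain ⟨y', h1, h2⟩ := hrd
  rw [rd_append_iff] at h1
  obtain ⟨y, h3, h4⟩ := h1
  have h5 := CP_inv rl_sym _ h2
  rw [FreeGroup.invRev_invRev] at h5
  have h6 : y' = y := rd_det hE h5 h3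
  rw [h6] at h4
  obtain ⟨z, hz1, hz2, hz3⟩ := CP_run W i y N h4
  have hN : (0 : ℤ) < N := by exact_mod_cast hW.pos
  refine ⟨fun t => z (i + (t - i) % N), g', i, ?_, ?_, ?_, heq⟩
  · intro t
    show Rl E (z (i + (t - i) % N)) (W t) (z (i + (t + 1 - i) % N))
    have r0 := Int.emod_nonneg (t - i) hN.ne'
    have r1 := Int.emod_lt_of_pos (t - i) hN
    have hWt : W t = W (i + (t - i) % N) := by
      apply hW.per_dvd
      have h7 := Int.emod_add_mul_ediv (t - i) N
      exact ⟨(t - i) / N, by linarith⟩
    have hstep := hz3 (i + (t - i) % N) (by omega) (by omega)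
    rw [← hWt] at hstep
    by_cases hc : (t - i) % N + 1 < N
    · have h8 : (t + 1 - i) % N = (t - i) % N + 1 := by
        have h9 : t + 1 - i = (t - i) + 1 := by ring
        rw [h9, Int.add_emod, Int.emod_eq_of_lt (a := (t - i) % N + 1 % N)]
        · rw [Int.emod_eq_of_lt (a := 1) (by norm_num) (by omega)]
        · rw [Int.emod_eq_of_lt (a := 1) (by norm_num) (by omega)]
          omega
        · rw [Int.emod_eq_of_lt (a := 1) (by norm_num) (by omega)]
          exact hc
      rw [h8, ← add_assoc]
      exact hstep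
    · have h9 : (t - i) % N + 1 = N := by omega
      have h8 : (t + 1 - i) % N = 0 := by
        have h10 : t + 1 - i = ((t - i) % N + 1) + N * ((t - i) / N) := by
          have h7 := Int.emod_add_mul_ediv (t - i) N
          linarith
        rw [h10, h9, Int.add_mul_emod_self_left, Int.emod_self]
      rw [h8, add_zero, hz1, ← hz2]
      have h11 : i + (N : ℤ) = i + (t - i) % N + 1 := by rw [add_assoc, h9]
      rw [h11]
      exact hstep
  · intro t
    show z (i + (t + N - i) % N) = z (i + (t - i) % N)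
    have h9 : t + (N : ℤ) - i = (t - i) + N := by ring
    rw [h9, Int.add_emod_right]
  · show PL (lf E) v (z (i + (i - i) % N)) g'
    rw [sub_self, Int.zero_emod, add_zero, hz1]
    have h7 := rd_pl h3
    rwa [FreeGroup.mk_toWord] at h7

end Pool.Agent.WN
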